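import Pool.Agent.N681.HO.Loc
import Pool.Agent.N24.RW.All
import Pool.Agent.N24.KM.All
import Pool.Agent.Results.MP_0e6b5f_nt.PeriodicDegrees

/-!
# MP_0e6b5f_nt: the degrees of the periodic points of Hénon maps along arbitrary metric sequences

The starting result `PeriodicDegrees` shows that for 100% of the vectors `(c₀, …, c_(d+1))` of integers
of a number field `K` in large boxes, and for all `δ ∈ O_K[1/D]` at once, all periodic points over the
algebraic closure of the Hénon map

  `f(x, y) = (y, φ(y) - δ x)`,  `φ = (c₁ + c₂ y + … + c_(d+1) y^d) / c₀`,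

have degrees over `K` that are divisible by `d`; here `Exceptional K D d` is the set of the vectors
without this property.

**Theorem.**  Let `κ` be a finite set and let `a_(i, 0), a_(i, 1), …` (`i ∈ κ`) be ANY sequences of real
numbers whose terms have mutual distances at least `δ > 0`, for instance any sequences of different
integers (factorials, values of recurrences, any enumeration of any infinite set of integers). For
almost all `α ∈ ℝ^κ` the vectors `x_n = (⌊a_(i, n) α_i⌋)_i` have the following property, simultaneously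
for ALL number fields `K`, all integral bases `ω₀, …, ω_(m-1)` of `K`, all `d ≥ 2`, all `D ≠ 0` in `O_K`
and all injective `f` from the set of the `(d + 2) m` pairs `(i, j)` to `κ`: for all `n` outside a set of
density zero the vector of the `c_i = ∑_j x_n (f (i, j)) ω_j` is not exceptional. The same holds for
`x_n = (⌊ξ_i α_i ^ k_n⌋)_i`, any sequence of different natural numbers `k_n`, all `ξ_i ≠ 0` and almost all
`α` with all `α_i > 1`, and in general for `x_n = (⌊f_(i, n) (α_i)⌋)_i`, for all sequences of functions to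
which Koksma's theorem applies on an interval, and almost all `α` in the box.

Nothing is assumed about the growth or the regularity of the sequences, so the theorem is not a
consequence of the theorem for boxes, nor of the theorems for thin sequences of generalised polynomials.

Proof.  By `PeriodicDegrees` it suffices that there is a prime `v` of `K` which does not divide `D`
and divides `c₀` exactly, such that `c₁ + … + c_(d+1) y^d` is irreducible of degree `d` modulo `v`.
For the prime numbers `p` that are norms of prime ideals `v` of `K` this is a condition modulo `p²` of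
density at least `(1/4d) (1/p - 1/p²)`, and the sum of these densities diverges by the theorem of
Frobenius; so for every `M` and `ε` the vectors without such a prime are contained in at most `ε q^r`
residue classes modulo some `q` prime to `M` (`Pool.Agent.N681.HO.pronull_Bs`). Modulo every `q` the
sequence `x_n` is equidistributed for almost every `α`, by Koksma's theorem in several variables
(`Pool.Agent.N24.KM.main`), and so the theorem for one `K`, `ω`, `d` and `D` follows.  The criterion
depends only on the structure constants of the integral basis, so that there are countably many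
conditions.
-/

set_option autoImplicit false

namespace Pool.Agent.Results.MP_0e6b5f_nt.MetricSequences

open NumberField Module MeasureTheory Filter Topology
open Pool.Agent.N24.RW
open Pool.Agent.N24.KM (Koksma Rarely Metric)
open Pool.Agent.Results.MP_0e6b5f_nt.PeriodicDegrees (Exceptional)

/-- The vector of the integers `c_i = ∑_j x (i, j) ω_j` of `K`. -/
noncomputable def vector {K : Type} [Field K] {m : ℕ} (ω : Module.Basis (Fin m) ℤ (𝓞 K)) (d : ℕ)
    (x : Fin (d + 2) × Fin m → ℤ) (i : Fin (d + 2)) : 𝓞 K :=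
  ∑ j : Fin m, x (i, j) • ω j

/-- For all number fields `K`, integral bases `ω`, degrees `d`, denominators `D` and choices `f` of the
coordinates: for all `n` outside a set of density zero the vector of the `∑_j x_n (f (i, j)) ω_j` is not
exceptional. -/
def Generic {κ : Type} (x : ℕ → κ → ℤ) : Prop :=
  ∀ (K : Type) [Field K] [NumberField K] (m : ℕ) (ω : Module.Basis (Fin m) ℤ (𝓞 K)) (d : ℕ),
    2 ≤ d → ∀ (D : 𝓞 K), D ≠ 0 → ∀ f : Fin (d + 2) × Fin m → κ, Function.Injective f →
      Tendsto (fun N : ℕ => (({n : ℕ | n < N ∧ vector ω d (fun q => x n (f q)) ∈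
        Exceptional.{0, 0} K D d}.ncard : ℕ) : ℝ) / (N : ℝ)) atTop (𝓝 0)

section proof

open IsDedekindDomain Pool.Agent.TH377.Dyn Pool.Agent.TH377.Sup

/-- A nonzero element of a prime ideal divides its norm, so the factorial of the norm of the element
lies in the prime ideal. -/
theorem fac_mem {K : Type} [Field K] [NumberField K] {D : 𝓞 K} (hD : D ≠ 0)
    (v : HeightOneSpectrum (𝓞 K)) (h : D ∈ v.asIdeal) :
    ((Nat.factorial (Algebra.norm ℤ D).natAbs : ℕ) : 𝓞 K) ∈ v.asIdeal := by
  have h1 : (Ideal.absNorm (Ideal.span {D}) : 𝓞 K) ∈ Ideal.span {D} := Ideal.absNorm_mem _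
  have h2 : Ideal.span {D} ≤ v.asIdeal := (Ideal.span_singleton_le_iff_mem _).2 h
  have h3 : (((Algebra.norm ℤ D).natAbs : ℕ) : 𝓞 K) ∈ v.asIdeal := by
    have := h2 h1
    rwa [Ideal.absNorm_span_singleton] at this
  have h4 : (Algebra.norm ℤ D).natAbs ≠ 0 := by
    rw [Ne, Int.natAbs_eq_zero, Algebra.norm_eq_zero_iff]
    exact hD
  obtain ⟨k, hk⟩ := Nat.dvd_factorial (Nat.pos_of_ne_zero h4) le_rfl
  rw [hk, Nat.cast_mul]
  exact v.asIdeal.mul_mem_right _ h3

theorem not_exceptional {K : Type} [Field K] [NumberField K] {d : ℕ} (hd : 2 ≤ d) {D : 𝓞 K}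
    (hD : D ≠ 0) (c : Fin (d + 2) → 𝓞 K)
    (h : Pool.Agent.N681.HO.LocGood d (Algebra.norm ℤ D).natAbs c) :
    c ∉ Exceptional.{0, 0} K D d := by
  obtain ⟨v, hMv, h1, h2, h3⟩ := h
  have hDv : D ∉ v.asIdeal := fun h => hMv (fac_mem hD v h)
  intro hc
  apply hc
  have h0 : c 0 ≠ 0 := by
    intro h0
    apply h2
    rw [h0]
    exact zero_mem _
  refine ⟨h0, Pool.Agent.Results.MP_0e6b5f_nt.PeriodicDegrees.poly_natDegree c h0 v h3, ?_⟩
  rintro δ ⟨k, r, hδ⟩ L _ _ _ P n hn hP
  have hL : NumberField L := NumberField.of_module_finite K L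
  obtain ⟨g1, g2, g3⟩ := Pool.Agent.TH377.Dyn.num_facts c v h3
  have hmap : Pool.Agent.Results.MP_0e6b5f_nt.PeriodicDegrees.henon L
      (Pool.Agent.Results.MP_0e6b5f_nt.PeriodicDegrees.poly c) δ =
      fun Q : L × L => (Q.2, (algebraMap (𝓞 K) L (c 0))⁻¹ *
        ((Pool.Agent.TH377.Dyn.num c).map (algebraMap (𝓞 K) L)).eval Q.2 -
          algebraMap K L δ * Q.1) := by
    funext Q
    rw [← Pool.Agent.TH377.Dyn.map_eq]
    rfl
  rw [hmap] at hP
  have hDk : D ^ k ∉ v.asIdeal := fun h => hDv (v.isPrime.mem_of_pow_mem k h)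
  have := Pool.Agent.TH377.Dyn.henon_dvd v (c 0) h1 h0 (Pool.Agent.TH377.Dyn.num c)
    (by rw [g1]; omega) g2 g3 δ r (D ^ k) hDk (by rw [← hδ]; push_cast; rfl) P n hn hP
  rwa [g1] at this

/-- from pronull sets to all number fields, integral bases, degrees and denominators -/
theorem ae_generic {κ : Type} [Fintype κ] [DecidableEq κ] [Nonempty κ]
    (x : (κ → ℝ) → ℕ → κ → ℤ) (H : (κ → ℝ) → Prop)
    (h : ∀ B : Set (κ → ℤ), ProNull B → ∀ᵐ α : κ → ℝ, H α → Rarely (x α) B) :
    ∀ᵐ α : κ → ℝ, H α → Generic (x α) := by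
  have h1 : ∀ᵐ α : κ → ℝ, ∀ (cd : Σ m : ℕ, (Fin m × Fin m × Fin m → ℤ)) (d M : ℕ), 2 ≤ d →
      ∀ f : Fin (d + 2) × Fin cd.1 → κ, Function.Injective f →
        H α → Rarely (x α) (Pool.Agent.N681.HO.Bs cd d M f) := by
    rw [ae_all_iff]
    intro cd
    rw [ae_all_iff]
    intro d
    rw [ae_all_iff]
    intro M
    rw [ae_all_iff]
    intro hd
    rw [ae_all_iff]
    intro f
    rw [ae_all_iff]
    intro hf
    exact h _ (Pool.Agent.N681.HO.pronull_Bs crit clo cd d M hd f hf)
  filter_upwards [h1] with α hα hH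
  intro K _ _ m ω d hd D hD f hf
  refine Pool.Agent.N681.HO.tendsto_mono (x := x α)
    (A := {c | vector ω d (fun q => c (f q)) ∈ Exceptional.{0, 0} K D d}) ?_
    (hα ⟨m, Pool.Agent.N681.HO.code ω⟩ d (Algebra.norm ℤ D).natAbs hd f hf hH)
  intro c hc
  exact ⟨K, inferInstance, inferInstance, ω, rfl, fun hg => not_exceptional hd hD _ hg hc⟩

end proof

/-- **The degrees of the periodic points of Hénon maps along arbitrary metric sequences.** -/
theorem result (κ : Type) [Fintype κ] [DecidableEq κ] [Nonempty κ] :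
    -- integral parts of linear sequences
    (∀ (a : κ → ℕ → ℝ) (δ : ℝ), 0 < δ → (∀ i m n, m ≠ n → δ ≤ |a i m - a i n|) →
      ∀ᵐ α : κ → ℝ, Generic fun n i => ⌊a i n * α i⌋) ∧
    -- integral parts of powers
    (∀ (k : ℕ → ℕ) (ξ : κ → ℝ), Function.Injective k → (∀ i, ξ i ≠ 0) →
      ∀ᵐ α : κ → ℝ, (∀ i, 1 < α i) → Generic fun n i => ⌊ξ i * α i ^ k n⌋) ∧
    -- integral parts of Koksma sequences
    (∀ (a b : κ → ℝ) (f : κ → ℕ → ℝ → ℝ), (∀ i, a i < b i) → (∀ i, Koksma (a i) (b i) (f i)) →
      ∀ᵐ α : κ → ℝ, (∀ i, α i ∈ Set.Icc (a i) (b i)) → Generic fun n i => ⌊f i n (α i)⌋) := by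
  refine ⟨fun a δ hδ ha => ?_, fun k ξ hk hξ => ?_, fun a b f hab hf => ?_⟩
  · have h := ae_generic (κ := κ) (fun α n i => ⌊a i n * α i⌋) (fun _ => True) fun B hB => by
      filter_upwards [(Pool.Agent.N24.KM.main κ B hB).2.1 a δ hδ ha] with α hα _
      exact hα
    filter_upwards [h] with α hα
    exact hα trivial
  · exact ae_generic (κ := κ) (fun α n i => ⌊ξ i * α i ^ k n⌋) (fun α => ∀ i, 1 < α i)
      fun B hB => (Pool.Agent.N24.KM.main κ B hB).2.2 k ξ hk hξ
  · exact ae_generic (κ := κ) (fun α n i => ⌊f i n (α i)⌋)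
      (fun α => ∀ i, α i ∈ Set.Icc (a i) (b i))
      fun B hB => (Pool.Agent.N24.KM.main κ B hB).1 a b f hab hf

end Pool.Agent.Results.MP_0e6b5f_nt.MetricSequences
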