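import Pool.Agent.N681.HO.Loc
import Pool.Agent.N24.RW.All
import Pool.Agent.Results.MP_0e6b5f_nt.PeriodicDegrees

/-!
# MP_0e6b5f_nt: the degrees of the periodic points of Hénon maps along random orbits of thin groups

The starting result `PeriodicDegrees` shows that for 100% of the vectors `(c₀, …, c_(d+1))` of integers
of a number field `K` in large boxes, and for all `δ ∈ O_K[1/D]` at once, all periodic points over the
algebraic closure of the Hénon map

  `f(x, y) = (y, φ(y) - δ x)`,  `φ = (c₁ + c₂ y + … + c_(d+1) y^d) / c₀`,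

have degrees over `K` that are divisible by `d`; here `Exceptional K D d` is the set of the vectors
without this property.

**Theorem.**  Let `s₀, …, s_m ∈ SL_κ(ℤ)`, `#κ ≥ 2`, generate `SL_κ(ℤ/q)` for all `q` prime to some
`q₀`; by strong approximation all finite families that generate a Zariski dense subgroup of `SL_κ` have
this property, among them those generating groups of infinite index.  Let `v ≠ 0` be a vector with
integral coordinates and apply to `v` again and again one of the `s_j`, chosen at random.  Almost surely
the orbit has the following property, simultaneously for ALL number fields `K`, all integral bases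
`ω₀, …, ω_(m-1)` of `K`, all `d ≥ 2`, all `D ≠ 0` in `O_K` and all injective `f` from the set of the
`(d + 2) m` pairs `(i, j)` to `κ`: except for a set of times `n` of density zero, the vector of the
`c_i = ∑_j x_(f(i, j)) ω_j`, where `x` is the position at the time `n`, is not exceptional.

**Theorem.**  For all `K`, `ω`, `d` and `D` the closure of the set of the integral coordinates of the
exceptional vectors in the product of the `ℤ_p^((d + 2) m)` over the primes `p` that do not divide `M`
has Haar measure zero, for every `M`.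

Only `N` positions are visited before the time `N`, so the first theorem is not a consequence of the
theorem for boxes, nor is the second: a set of density zero in boxes can be dense in all `ℤ_p^r`.

Proof.  By `PeriodicDegrees` it suffices that there is a prime `v` of `K` which does not divide `D`
and divides `c₀` exactly, such that `c₁ + … + c_(d+1) y^d` is irreducible of degree `d` modulo `v`.
For the prime numbers `p` that are norms of prime ideals `v` of `K` this is a condition modulo `p²` of
density at least `(1/4d) (1/p - 1/p²)`, and the sum of these densities diverges by the theorem of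
Frobenius.  This gives the second theorem.  Modulo every `q` the random orbit is equidistributed in the
orbit of `v` under `SL_κ(ℤ/q)`, which contains a positive proportion of all vectors (independent of `q`),
and so the first theorem for one `K`, `ω`, `d` and `D` follows.  The criterion depends only on the
structure constants of the integral basis, so that there are countably many conditions.
-/

set_option autoImplicit false

namespace Pool.Agent.Results.MP_0e6b5f_nt.RandomOrbits

open NumberField Module MeasureTheory Filter Topology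
open Pool.Agent.N24.RW
open Pool.Agent.Results.MP_0e6b5f_nt.PeriodicDegrees (Exceptional)

/-- The vector of the integers `c_i = ∑_j x (i, j) ω_j` of `K`. -/
noncomputable def vector {K : Type} [Field K] {m : ℕ} (ω : Module.Basis (Fin m) ℤ (𝓞 K)) (d : ℕ)
    (x : Fin (d + 2) × Fin m → ℤ) (i : Fin (d + 2)) : 𝓞 K :=
  ∑ j : Fin m, x (i, j) • ω j

section proof

open IsDedekindDomain Pool.Agent.TH377.Dyn Pool.Agent.TH377.Sup

/-- A nonzero element of a prime ideal divides its norm, so the factorial of the norm of the element
lies in the prime ideal. -/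
theorem fac_mem {K : Type} [Field K] [NumberField K] {D : 𝓞 K} (hD : D ≠ 0)
    (v : HeightOneSpectrum (𝓞 K)) (h : D ∈ v.asIdeal) :
    ((Nat.factorial (Algebra.norm ℤ D).natAbs : ℕ) : 𝓞 K) ∈ v.asIdeal := by
  have h1 : (Ideal.absNorm (Ideal.span {D}) : 𝓞 K) ∈ Ideal.span {D} := Ideal.absNorm_mem _
  have h2 : Ideal.span {D} ≤ v.asIdeal := (Ideal.span_singleton_le_iff_mem _).2 h
  have h3 : (((Algebra.norm ℤ D).natAbs : ℕ) : 𝓞 K) ∈ v.asIdeal := by
    have := h2 h1
    rwa [Ideal.absNorm_span_singleton] at this
  have h4 : (Algebra.norm ℤ D).natAbs ≠ 0 := by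
    rw [Ne, Int.natAbs_eq_zero, Algebra.norm_eq_zero_iff]
    exact hD
  obtain ⟨k, hk⟩ := Nat.dvd_factorial (Nat.pos_of_ne_zero h4) le_rfl
  rw [hk, Nat.cast_mul]
  exact v.asIdeal.mul_mem_right _ h3

theorem not_exceptional {K : Type} [Field K] [NumberField K] {d : ℕ} (hd : 2 ≤ d) {D : 𝓞 K}
    (hD : D ≠ 0) (c : Fin (d + 2) → 𝓞 K)
    (h : Pool.Agent.N681.HO.LocGood d (Algebra.norm ℤ D).natAbs c) :
    c ∉ Exceptional.{0, 0} K D d := by
  obtain ⟨v, hMv, h1, h2, h3⟩ := h
  have hDv : D ∉ v.asIdeal := fun h => hMv (fac_mem hD v h)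
  intro hc
  apply hc
  have h0 : c 0 ≠ 0 := by
    intro h0
    apply h2
    rw [h0]
    exact zero_mem _
  refine ⟨h0, Pool.Agent.Results.MP_0e6b5f_nt.PeriodicDegrees.poly_natDegree c h0 v h3, ?_⟩
  rintro δ ⟨k, r, hδ⟩ L _ _ _ P n hn hP
  have hL : NumberField L := NumberField.of_module_finite K L
  obtain ⟨g1, g2, g3⟩ := Pool.Agent.TH377.Dyn.num_facts c v h3
  have hmap : Pool.Agent.Results.MP_0e6b5f_nt.PeriodicDegrees.henon L
      (Pool.Agent.Results.MP_0e6b5f_nt.PeriodicDegrees.poly c) δ =
      fun Q : L × L => (Q.2, (algebraMap (𝓞 K) L (c 0))⁻¹ *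
        ((Pool.Agent.TH377.Dyn.num c).map (algebraMap (𝓞 K) L)).eval Q.2 -
          algebraMap K L δ * Q.1) := by
    funext Q
    rw [← Pool.Agent.TH377.Dyn.map_eq]
    rfl
  rw [hmap] at hP
  have hDk : D ^ k ∉ v.asIdeal := fun h => hDv (v.isPrime.mem_of_pow_mem k h)
  have := Pool.Agent.TH377.Dyn.henon_dvd v (c 0) h1 h0 (Pool.Agent.TH377.Dyn.num c)
    (by rw [g1]; omega) g2 g3 δ r (D ^ k) hDk (by rw [← hδ]; push_cast; rfl) P n hn hP
  rwa [g1] at this

end proof

/-- **The degrees of the periodic points of Hénon maps along random orbits of thin groups**, and the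
smallness of the closures of the exceptional sets in the products of the rings `ℤ_p`. -/
theorem result :
    (∀ (κ : Type) [Fintype κ] [DecidableEq κ], 2 ≤ Fintype.card κ → ∀ (W : Walk κ) (v : κ → ℤ),
      v ≠ 0 → ∀ᵐ w ∂(words W.m), ∀ (K : Type) [Field K] [NumberField K] (m : ℕ)
        (ω : Module.Basis (Fin m) ℤ (𝓞 K)) (d : ℕ), 2 ≤ d →
        ∀ (D : 𝓞 K), D ≠ 0 → ∀ f : Fin (d + 2) × Fin m → κ, Function.Injective f →
          Tendsto (fun N : ℕ => (({n : ℕ | n < N ∧ vector ω d (fun q => orb W v w n (f q)) ∈
            Exceptional.{0, 0} K D d}.ncard : ℕ) : ℝ) / (N : ℝ)) atTop (𝓝 0)) ∧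
    ∀ (K : Type) [Field K] [NumberField K] (m : ℕ) (ω : Module.Basis (Fin m) ℤ (𝓞 K)) (d : ℕ),
      2 ≤ d → ∀ (D : 𝓞 K), D ≠ 0 →
        ProNull {x : Fin (d + 2) × Fin m → ℤ | vector ω d x ∈ Exceptional.{0, 0} K D d} := by
  constructor
  · intro κ _ _ hκ W v hv
    filter_upwards [Pool.Agent.N681.HO.ae_good crit clo main hκ W v hv] with w hw
    intro K _ _ m ω d hd D hD f hf
    refine Pool.Agent.N681.HO.tendsto_mono (x := fun n => orb W v w n)
      (A := {c | vector ω d (fun q => c (f q)) ∈ Exceptional.{0, 0} K D d}) ?_
      (hw ⟨m, Pool.Agent.N681.HO.code ω⟩ d (Algebra.norm ℤ D).natAbs hd f hf)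
    intro c hc
    exact ⟨K, inferInstance, inferInstance, ω, rfl, fun hg => not_exceptional hd hD _ hg hc⟩
  · intro K _ _ m ω d hd D hD
    refine (clo _).1 _ _ ?_ (Pool.Agent.N681.HO.pronull_bad crit clo ω d hd
      (Algebra.norm ℤ D).natAbs)
    intro x hx hg
    exact not_exceptional hd hD _ hg hx

end Pool.Agent.Results.MP_0e6b5f_nt.RandomOrbits
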