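import Mathlib
import Pool.Agent.Results.MP_0e6b5f_nt.FamiliesExactCount
import Pool.Agent.N938.TD.All6

/-!
# MP_0e6b5f_nt: periodic points of Hénon maps along equidistributed and thin sequences of parameters

The starting result `FamiliesExactCount` shows: in every algebraic family
`f_t(x, y) = (y, (G_t(y) - δ(t) x) / μ(t))`, `t = (t_1, …, t_m)`, of generalized Hénon maps over a number
field `k`, 100% of the rational members, when the parameters `t = (v_1 / v_0, …, v_m / v_0)` are ordered
by boxes, have exactly as many periodic points of degree at most `B` over `k` as the generic member, and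
this number is finite.

Here we prove this along all sequences of parameters which are equidistributed modulo all integers, with
one exceptional set for all families over all number fields. Let `x_{i j}(n)` (`i, j = 0, 1, 2, …`) be
sequences of integers such that every finite number of them is jointly equidistributed modulo every
integer, when `n` runs through subsets `S₁(N)` of `(N, 2N]`, `N → ∞`, and also when `n` runs through
subsets `S₂(N)` of `(N, 2N]`. For a number field `k` with the integral basis `ω_0, …, ω_{r-1}` we
consider the integers of `k`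

  `v_l(n) = ∑_j x_{l j}(n) ω_j`,  `l = 0, 1, 2, …`.

**Theorem.** There is ONE set `E` of positive integers, of relative density zero in the sets `S₁(N)`
and in the sets `S₂(N)`, such that for ALL number fields `k ⊂ ℂ`, all integral bases of `k`, all
`d ≥ 2`, `m`, ALL families of generalized Hénon maps of degree `d` over `k[t_1, …, t_m]`, and all `B`:
for all but finitely many `n` outside `E` the member at
`t = (v_1(n) / v_0(n), …, v_m(n) / v_0(n))` is a generalized Hénon map of degree `d` with exactly as
many periodic points of degree at most `B` over `k` as the generic member, and this number is finite.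
The set `E` depends only on the `x_{i j}` and the `S_i(N)`.

The hypothesis holds for thin sequences. Let `P_{i j}` be generalised polynomials
`P(n) = ∑ a_x n ^ x` (finitely many real exponents, real coefficients) with distinct leading exponents
which are positive and not integers and have positive coefficients, for example
`P_{i j}(n) = n ^ ((i + j)² + i + √2)`. Then `x_{i j}(n) = ⌊P_{i j}(n)⌋` satisfies the hypothesis for
`S₁(N) = (N, 2N]` and for the set `S₂(N)` of the primes in `(N, 2N]`. Only `N` of the roughly
`N ^ (sum of the leading exponents)` vectors of a box occur, so this is not a consequence of the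
theorem for boxes.

Proof. Polynomials in equidistributed integers are rarely divisible by large primes, and Hilbert's
irreducibility theorem holds along equidistributed sequences (`Pool.Agent.N455.HT`,
`Pool.Agent.N455.TX`). The transfer of the starting file to the generic member uses only these two
properties of the density (`Pool.Agent.N938.TD`). There are countably many families over number fields,
and a diagonal argument gives one set for all of them. Generalised polynomials are equidistributed by
exponential sums (`Pool.Agent.N666.TM`).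
-/

set_option autoImplicit false

namespace Pool.Agent.Results.MP_0e6b5f_nt.ThinFamilies

open Polynomial NumberField Filter Topology
open Pool.Agent.Results.MP_0e6b5f_nt.FamiliesExactCount (IsHenon periodic gen spec)

/-- Every finite part of the array `x i j` of sequences of integers is equidistributed modulo all
integers over the sets `S N`, `N → ∞`. -/
def Equidistributed (S : ℕ → Finset ℕ) (x : ℕ → ℕ → ℕ → ℤ) : Prop :=
  ∀ (T : Finset (ℕ × ℕ)) (q : ℕ), 1 ≤ q → ∀ r : ℕ × ℕ → ℤ,
    Tendsto (fun N : ℕ => ({n : ℕ | n ∈ S N ∧ ∀ p ∈ T, x p.1 p.2 n ≡ r p [ZMOD q]}.ncard : ℝ) /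
      (S N).card) atTop (𝓝 (1 / (q : ℝ) ^ T.card))

/-- `E` has density zero relative to the sets `S N`. -/
def NullIn (S : ℕ → Finset ℕ) (E : Set ℕ) : Prop :=
  ∀ ε : ℝ, 0 < ε → ∃ N₀ : ℕ, ∀ N : ℕ, N₀ ≤ N →
    ({n : ℕ | n ∈ S N ∧ n ∈ E}.ncard : ℝ) ≤ ε * (S N).card

/-- The vector of the integers `v_l(n) = ∑_j x_{l j}(n) ω_j` of `k`, `l = 0, …, m`. -/
noncomputable def vector {k : Type} [Field k] {r : ℕ} (ω : Module.Basis (Fin r) ℤ (𝓞 k))
    (x : ℕ → ℕ → ℕ → ℤ) (m n : ℕ) : Fin (m + 1) → 𝓞 k :=
  fun l => ∑ j : Fin r, x l j n • ω j

/-- `c` is the largest exponent of the generalised polynomial `∑ a_x n ^ x`; it is positive and not an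
integer and has a positive coefficient. -/
def Admissible (F : Finset ℝ) (a : ℝ → ℝ) (c : ℝ) : Prop :=
  c ∈ F ∧ (∀ x ∈ F, x ≤ c) ∧ 0 < c ∧ (∀ m : ℕ, c ≠ m) ∧ 0 < a c

/-- The integer parts of the values at `n` of the generalised polynomials
`P_{i j}(n) = ∑_{x ∈ F i j} a_{i j x} n ^ x`. -/
noncomputable def value (F : ℕ → ℕ → Finset ℝ) (a : ℕ → ℕ → ℝ → ℝ) (i j n : ℕ) : ℤ :=
  ⌊∑ x ∈ F i j, a i j x * (n : ℝ) ^ x⌋

/-- **Periodic points of bounded degree along equidistributed sequences of parameters, with one
exceptional set for all number fields, integral bases, families of generalized Hénon maps and degrees;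
generalised polynomials are equidistributed over the integers and over the primes.** -/
theorem result :
    (∀ (x : ℕ → ℕ → ℕ → ℤ) (S₁ S₂ : ℕ → Finset ℕ), (∀ N, S₁ N ⊆ Finset.Ioc N (2 * N)) →
      (∀ N, S₂ N ⊆ Finset.Ioc N (2 * N)) → Equidistributed S₁ x → Equidistributed S₂ x →
      ∃ E : Set ℕ, NullIn S₁ E ∧ NullIn S₂ E ∧
        ∀ (k : Subfield ℂ) [NumberField k] (r : ℕ) (ω : Module.Basis (Fin r) ℤ (𝓞 k)) (d : ℕ),
          2 ≤ d → ∀ (m : ℕ) (G : (MvPolynomial (Fin m) k)[X]) (δ μ : MvPolynomial (Fin m) k),
          IsHenon d G δ μ → ∀ B : ℕ,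
            (periodic (G.map (gen k m)) (gen k m δ) (gen k m μ) B).Finite ∧
            {n : ℕ | n ∉ E ∧ ¬ (vector ω x m n 0 ≠ 0 ∧
              IsHenon d (G.map (spec (vector ω x m n))) (spec (vector ω x m n) δ)
                (spec (vector ω x m n) μ) ∧
              (periodic (G.map (spec (vector ω x m n))) (spec (vector ω x m n) δ)
                (spec (vector ω x m n) μ) B).encard =
                (periodic (G.map (gen k m)) (gen k m δ) (gen k m μ) B).encard)}.Finite) ∧
    (∀ (F : ℕ → ℕ → Finset ℝ) (a : ℕ → ℕ → ℝ → ℝ) (c : ℕ → ℕ → ℝ),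
      (∀ i j, Admissible (F i j) (a i j) (c i j)) →
      (Function.Injective fun q : ℕ × ℕ => c q.1 q.2) →
      Equidistributed (fun N => Finset.Ioc N (2 * N)) (value F a) ∧
      Equidistributed (fun N => (Finset.Ioc N (2 * N)).filter Nat.Prime) (value F a)) := by
  refine ⟨?_, fun F a c h hc => Pool.Agent.N938.TD.equiA_fl F a c h hc⟩
  intro x S₁ S₂ hS₁ hS₂ h₁ h₂
  obtain ⟨E, h1, h2, h3⟩ := Pool.Agent.N938.TD.all6 hS₁ hS₂ h₁ h₂
  refine ⟨E, h1, h2, ?_⟩
  intro k _ r ω d hd m G δ μ hG B
  obtain ⟨g1, g2⟩ := h3 k r ω d hd m G δ μ hG B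
  refine ⟨g1, g2.subset ?_⟩
  rintro n ⟨hnE, hn⟩
  refine ⟨hnE, ?_⟩
  rintro v rfl hgood
  exact hn hgood

end Pool.Agent.Results.MP_0e6b5f_nt.ThinFamilies
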